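import Pool.Agent.LRY.Stmts

/-! Squad LRY, row FCQ (helper77): the factors of `G` (adaptation of row FCT of helper67). -/

set_option autoImplicit false

open Polynomial

namespace Pool.Agent.LRY.H77

open Pool.Agent.LRY Pool.Agent.LRG.E

theorem filter_inl {r₁ r₂ : ℕ} (i : Fin r₁) :
    Finset.univ.filter (fun o : Ro r₁ r₂ => fac o = Sum.inl i) = {Sum.inl i} := by
  ext o
  rw [Finset.mem_filter, Finset.mem_singleton]
  rcases o with i' | ⟨j', b⟩
  · simp [fac]
  · simp [fac]

theorem filter_inr {r₁ r₂ : ℕ} (j : Fin r₂) :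
    Finset.univ.filter (fun o : Ro r₁ r₂ => fac o = Sum.inr j) =
      {Sum.inr (j, true), Sum.inr (j, false)} := by
  ext o
  rw [Finset.mem_filter, Finset.mem_insert, Finset.mem_singleton]
  rcases o with i' | ⟨j', b⟩
  · simp [fac]
  · cases b <;> simp [fac]

/-- row FCQ -/
theorem fcq : FcqStmt := by
  intro r₁ r₂ a c hc
  have hk : ∀ k : Fa r₁ r₂, (gq a c k).Monic ∧ (gq a c k).natDegree = mu k ∧
      (gq a c k).map (Int.castRingHom ℂ) =
        ∏ o ∈ Finset.univ.filter (fun o : Ro r₁ r₂ => fac o = k), (X - C (wr a c o)) := by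
    intro k
    rcases k with i | j
    · refine ⟨monic_X_sub_C _, natDegree_X_sub_C _, ?_⟩
      rw [filter_inl, Finset.prod_singleton]
      have h1 : wr a c (Sum.inl i : Ro r₁ r₂) = (a (Sum.inl i) : ℂ) := rfl
      rw [h1]
      simp only [gq, Sum.elim_inl, Polynomial.map_sub, map_X, map_C]
      simp
    · have hm : (gq a c (Sum.inr j : Fa r₁ r₂)) = X ^ 2 - C (2 * a (Sum.inr j)) * X +
          C (a (Sum.inr j) ^ 2 + c j) := rfl
      refine ⟨?_, ?_, ?_⟩
      · rw [hm]
        monicity!
      · rw [hm]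
        have h2 : mu (Sum.inr j : Fa r₁ r₂) = 2 := rfl
        rw [h2]
        compute_degree!
      · have hne : (Sum.inr (j, true) : Ro r₁ r₂) ≠ Sum.inr (j, false) := by simp
        rw [filter_inr, Finset.prod_pair hne, hm]
        have h1 : wr a c (Sum.inr (j, true) : Ro r₁ r₂) =
            (a (Sum.inr j) : ℂ) + ((Real.sqrt (c j : ℝ) : ℝ) : ℂ) * Complex.I := by
          simp [wr]
        have h2 : wr a c (Sum.inr (j, false) : Ro r₁ r₂) =
            (a (Sum.inr j) : ℂ) - ((Real.sqrt (c j : ℝ) : ℝ) : ℂ) * Complex.I := by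
          simp [wr, sub_eq_add_neg]
        have hs : ((Real.sqrt (c j : ℝ) : ℝ) : ℂ) ^ 2 = (c j : ℂ) := by
          rw [← Complex.ofReal_pow, Real.sq_sqrt (by exact_mod_cast hc j), Complex.ofReal_intCast]
        rw [h1, h2]
        generalize ((Real.sqrt (c j : ℝ) : ℝ) : ℂ) = s at hs
        have e1 : (X - C ((a (Sum.inr j) : ℂ) + s * Complex.I)) *
            (X - C ((a (Sum.inr j) : ℂ) - s * Complex.I)) =
            X ^ 2 - C (2 * (a (Sum.inr j) : ℂ)) * X + C ((a (Sum.inr j) : ℂ) ^ 2 + (c j : ℂ)) := by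
          have e2 : 2 * (a (Sum.inr j) : ℂ) =
              ((a (Sum.inr j) : ℂ) + s * Complex.I) + ((a (Sum.inr j) : ℂ) - s * Complex.I) := by
            ring
          have e3 : (a (Sum.inr j) : ℂ) ^ 2 + (c j : ℂ) =
              ((a (Sum.inr j) : ℂ) + s * Complex.I) * ((a (Sum.inr j) : ℂ) - s * Complex.I) := by
            rw [← hs]
            linear_combination (s ^ 2) * Complex.I_sq
          rw [e2, e3]
          generalize (a (Sum.inr j) : ℂ) + s * Complex.I = u
          generalize (a (Sum.inr j) : ℂ) - s * Complex.I = v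
          rw [map_add, map_mul]
          ring
        have c1 : Int.castRingHom ℂ (2 * a (Sum.inr j)) = 2 * (a (Sum.inr j) : ℂ) := by
          simp
        have c2 : Int.castRingHom ℂ (a (Sum.inr j) ^ 2 + c j) =
            (a (Sum.inr j) : ℂ) ^ 2 + (c j : ℂ) := by
          simp
        rw [e1, Polynomial.map_add, Polynomial.map_sub, Polynomial.map_pow, Polynomial.map_mul,
          map_X, map_C, map_C, c1, c2]
  refine ⟨hk, monic_prod_of_monic _ _ fun k _ => (hk k).1, ?_, ?_⟩
  · unfold Gq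
    rw [natDegree_prod_of_monic _ _ fun k _ => (hk k).1,
      Finset.sum_congr rfl fun k _ => (hk k).2.1, Fintype.sum_sum_type]
    simp [mu, mul_comm]
  · unfold Gq
    rw [Polynomial.map_prod, Finset.prod_congr rfl fun k _ => (hk k).2.2]
    exact Finset.prod_fiberwise _ _ _

end Pool.Agent.LRY.H77
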